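import Mathlib

namespace Pool.Agent.Results.MP_55f31a_lc.Yes

/-- formulas in negation normal form -/
inductive Fm
  | lit (p : ℕ) | nlit (p : ℕ) | bot | top | and (φ ψ : Fm) | or (φ ψ : Fm)
  | dia (φ : Fm) | box (φ : Fm)

/-- negation by the De Morgan and modal duality laws -/
def neg : Fm → Fm
  | .lit p => .nlit p
  | .nlit p => .lit p
  | .bot => .top
  | .top => .bot
  | .and φ ψ => .or (neg φ) (neg ψ)
  | .or φ ψ => .and (neg φ) (neg ψ)
  | .dia φ => .box (neg φ)
  | .box φ => .dia (neg φ)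

def imp (φ ψ : Fm) : Fm := .or (neg φ) ψ

def iff (φ ψ : Fm) : Fm := .and (imp φ ψ) (imp ψ φ)

/-- uniform substitution -/
def sub (σ : ℕ → Fm) : Fm → Fm
  | .lit p => σ p
  | .nlit p => neg (σ p)
  | .bot => .bot
  | .top => .top
  | .and φ ψ => .and (sub σ φ) (sub σ ψ)
  | .or φ ψ => .or (sub σ φ) (sub σ ψ)
  | .dia φ => .dia (sub σ φ)
  | .box φ => .box (sub σ φ)

/-- literals occurring in a formula: (p, true) is p and (p, false) is its negation -/
def lits : Fm → Set (ℕ × Bool)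
  | .lit p => {(p, true)}
  | .nlit p => {(p, false)}
  | .bot => ∅
  | .top => ∅
  | .and φ ψ => lits φ ∪ lits ψ
  | .or φ ψ => lits φ ∪ lits ψ
  | .dia φ => lits φ
  | .box φ => lits φ

def vars (φ : Fm) : Set ℕ := Prod.fst '' lits φ

/-- truth of a modality-free formula under a valuation (a formula with a modality in a needed
position is declared false, so only classical tautologies are true everywhere) -/
def Tr (v : ℕ → Prop) : Fm → Prop
  | .lit p => v p
  | .nlit p => ¬ v p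
  | .bot => False
  | .top => True
  | .and φ ψ => Tr v φ ∧ Tr v ψ
  | .or φ ψ => Tr v φ ∨ Tr v ψ
  | .dia _ => False
  | .box _ => False

def ModFree : Fm → Prop
  | .and φ ψ => ModFree φ ∧ ModFree ψ
  | .or φ ψ => ModFree φ ∧ ModFree ψ
  | .dia _ => False
  | .box _ => False
  | _ => True

structure MonLogic (L : Set Fm) : Prop where
  taut : ∀ φ, ModFree φ → (∀ v, Tr v φ) → φ ∈ L
  dual : iff (.box (.lit 0)) (neg (.dia (neg (.lit 0)))) ∈ L
  mono : imp (.dia (.lit 0)) (.dia (.or (.lit 0) (.lit 1))) ∈ L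
  mp : ∀ φ ψ, φ ∈ L → imp φ ψ ∈ L → ψ ∈ L
  us : ∀ φ σ, φ ∈ L → sub σ φ ∈ L
  re : ∀ φ ψ, iff φ ψ ∈ L → iff (.dia φ) (.dia ψ) ∈ L

def Positive (φ : Fm) : Prop := ∀ p, (p, false) ∉ lits φ

def MonotoneIn (L : Set Fm) (φ : Fm) : Prop :=
  ∃ q : ℕ → ℕ, Set.InjOn q (vars φ) ∧ (∀ p ∈ vars φ, q p ∉ vars φ) ∧
    imp φ (sub (fun p => .or (.lit p) (.lit (q p))) φ) ∈ L

def LPP (L : Set Fm) : Prop :=
  ∀ φ, MonotoneIn L φ → ∃ ψ, Positive ψ ∧ iff φ ψ ∈ L

def LIP (L : Set Fm) : Prop :=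
  ∀ φ ψ, imp φ ψ ∈ L → ∃ θ, lits θ ⊆ lits φ ∩ lits ψ ∧ imp φ θ ∈ L ∧ imp θ ψ ∈ L

theorem neg_neg' (φ : Fm) : neg (neg φ) = φ := by
  induction φ <;> simp_all [neg]

theorem sub_neg (σ : ℕ → Fm) (φ : Fm) : sub σ (neg φ) = neg (sub σ φ) := by
  induction φ <;> simp_all [neg, sub, neg_neg']

theorem sub_imp (σ : ℕ → Fm) (φ ψ : Fm) : sub σ (imp φ ψ) = imp (sub σ φ) (sub σ ψ) := by
  simp [imp, sub, sub_neg]

def s4 (a b c d : Fm) : ℕ → Fm
  | 0 => a
  | 1 => b
  | 2 => c
  | _ => d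

section
variable {L : Set Fm} (h : MonLogic L)
include h

theorem inst (τ : Fm) (h1 : ModFree τ) (h2 : ∀ v, Tr v τ) (a b c d : Fm) :
    sub (s4 a b c d) τ ∈ L := h.us _ _ (h.taut τ h1 h2)

theorem refl (a : Fm) : imp a a ∈ L := by
  have := inst h (imp (.lit 0) (.lit 0)) (by simp [imp, neg, ModFree])
    (by intro v; simp [imp, neg, Tr]; tauto) a a a a
  simpa [sub_imp, sub, s4] using this

theorem trans {a b c : Fm} (h1 : imp a b ∈ L) (h2 : imp b c ∈ L) : imp a c ∈ L := by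
  have := inst h (imp (imp (.lit 0) (.lit 1)) (imp (imp (.lit 1) (.lit 2)) (imp (.lit 0) (.lit 2))))
    (by simp [imp, neg, ModFree]) (by intro v; simp [imp, neg, Tr]; tauto) a b c a
  simp only [sub_imp, sub, s4] at this
  exact h.mp _ _ h2 (h.mp _ _ h1 this)

theorem mand {a b c d : Fm} (h1 : imp a b ∈ L) (h2 : imp c d ∈ L) :
    imp (.and a c) (.and b d) ∈ L := by
  have := inst h (imp (imp (.lit 0) (.lit 1)) (imp (imp (.lit 2) (.lit 3))
      (imp (.and (.lit 0) (.lit 2)) (.and (.lit 1) (.lit 3)))))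
    (by simp [imp, neg, ModFree]) (by intro v; simp [imp, neg, Tr]; tauto) a b c d
  simp only [sub_imp, sub, s4] at this
  exact h.mp _ _ h2 (h.mp _ _ h1 this)

theorem mor {a b c d : Fm} (h1 : imp a b ∈ L) (h2 : imp c d ∈ L) :
    imp (.or a c) (.or b d) ∈ L := by
  have := inst h (imp (imp (.lit 0) (.lit 1)) (imp (imp (.lit 2) (.lit 3))
      (imp (.or (.lit 0) (.lit 2)) (.or (.lit 1) (.lit 3)))))
    (by simp [imp, neg, ModFree]) (by intro v; simp [imp, neg, Tr]; tauto) a b c d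
  simp only [sub_imp, sub, s4] at this
  exact h.mp _ _ h2 (h.mp _ _ h1 this)

theorem mkiff {a b : Fm} (h1 : imp a b ∈ L) (h2 : imp b a ∈ L) : iff a b ∈ L := by
  have := inst h (imp (.lit 0) (imp (.lit 1) (.and (.lit 0) (.lit 1))))
    (by simp [imp, neg, ModFree]) (by intro v; simp [imp, neg, Tr]; tauto)
    (imp a b) (imp b a) a a
  simp only [sub_imp, sub, s4] at this
  exact h.mp _ _ h2 (h.mp _ _ h1 this)

theorem iff1 {a b : Fm} (h1 : iff a b ∈ L) : imp a b ∈ L := by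
  have := inst h (imp (.and (.lit 0) (.lit 1)) (.lit 0))
    (by simp [imp, neg, ModFree]) (by intro v; simp [imp, neg, Tr]; tauto)
    (imp a b) (imp b a) a a
  simp only [sub_imp, sub, s4] at this
  exact h.mp _ _ h1 this

theorem contra {a b : Fm} (h1 : imp a b ∈ L) : imp (neg b) (neg a) ∈ L := by
  have := inst h (imp (imp (.lit 0) (.lit 1)) (imp (.nlit 1) (.nlit 0)))
    (by simp [imp, neg, ModFree]) (by intro v; simp [imp, neg, Tr]; tauto) a b a a
  simp only [sub_imp, sub, s4] at this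
  exact h.mp _ _ h1 this

theorem orr (a b : Fm) : imp b (.or a b) ∈ L := by
  have := inst h (imp (.lit 1) (.or (.lit 0) (.lit 1)))
    (by simp [imp, neg, ModFree]) (by intro v; simp [imp, neg, Tr]; tauto) a b a a
  simpa only [sub_imp, sub, s4] using this

theorem andr (a b : Fm) : imp (.and a b) b ∈ L := by
  have := inst h (imp (.and (.lit 0) (.lit 1)) (.lit 1))
    (by simp [imp, neg, ModFree]) (by intro v; simp [imp, neg, Tr]; tauto) a b a a
  simpa only [sub_imp, sub, s4] using this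

theorem orelim {a b : Fm} (h1 : imp a b ∈ L) : imp (.or a b) b ∈ L := by
  have := inst h (imp (imp (.lit 0) (.lit 1)) (imp (.or (.lit 0) (.lit 1)) (.lit 1)))
    (by simp [imp, neg, ModFree]) (by intro v; simp [imp, neg, Tr]; tauto) a b a a
  simp only [sub_imp, sub, s4] at this
  exact h.mp _ _ h1 this

theorem mdia {a b : Fm} (h1 : imp a b ∈ L) : imp (.dia a) (.dia b) ∈ L := by
  have e1 := h.us _ (s4 a b a a) h.mono
  simp only [sub_imp, sub, s4] at e1
  exact trans h e1 (iff1 h (h.re _ _ (mkiff h (orelim h h1) (orr h a b))))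

theorem mbox {a b : Fm} (h1 : imp a b ∈ L) : imp (.box a) (.box b) ∈ L := by
  have := contra h (mdia h (contra h h1))
  simpa only [neg, neg_neg'] using this

end

/-- substitution by polarity -/
def ps (a b : ℕ → Fm) : Fm → Fm
  | .lit p => a p
  | .nlit p => b p
  | .bot => .bot
  | .top => .top
  | .and φ ψ => .and (ps a b φ) (ps a b ψ)
  | .or φ ψ => .or (ps a b φ) (ps a b ψ)
  | .dia φ => .dia (ps a b φ)
  | .box φ => .box (ps a b φ)

theorem ps_mono {L : Set Fm} (h : MonLogic L) {a b a' b' : ℕ → Fm} (φ : Fm)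
    (h1 : ∀ p ∈ vars φ, imp (a p) (a' p) ∈ L) (h2 : ∀ p ∈ vars φ, imp (b p) (b' p) ∈ L) :
    imp (ps a b φ) (ps a' b' φ) ∈ L := by
  induction φ with
  | lit p => exact h1 p (by simp [vars, lits])
  | nlit p => exact h2 p (by simp [vars, lits])
  | bot => exact refl h _
  | top => exact refl h _
  | and φ ψ i1 i2 =>
    simp only [vars, lits, Set.image_union, Set.mem_union] at h1 h2
    exact mand h (i1 (fun p hp => h1 p (.inl hp)) (fun p hp => h2 p (.inl hp)))
      (i2 (fun p hp => h1 p (.inr hp)) (fun p hp => h2 p (.inr hp)))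
  | or φ ψ i1 i2 =>
    simp only [vars, lits, Set.image_union, Set.mem_union] at h1 h2
    exact mor h (i1 (fun p hp => h1 p (.inl hp)) (fun p hp => h2 p (.inl hp)))
      (i2 (fun p hp => h1 p (.inr hp)) (fun p hp => h2 p (.inr hp)))
  | dia φ i => exact mdia h (i h1 h2)
  | box φ i => exact mbox h (i h1 h2)

theorem sub_eq_ps (σ : ℕ → Fm) (φ : Fm) : sub σ φ = ps σ (fun p => neg (σ p)) φ := by
  induction φ <;> simp_all [sub, ps]

theorem ps_id (φ : Fm) : ps .lit .nlit φ = φ := by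
  induction φ <;> simp_all [ps]

theorem sub_ps (σ : ℕ → Fm) (a b : ℕ → Fm) (φ : Fm) :
    sub σ (ps a b φ) = ps (fun p => sub σ (a p)) (fun p => sub σ (b p)) φ := by
  induction φ <;> simp_all [sub, ps]

theorem sub_fix (σ : ℕ → Fm) (φ : Fm) (hσ : ∀ p ∈ vars φ, σ p = .lit p) : sub σ φ = φ := by
  induction φ with
  | lit p => exact hσ p (by simp [vars, lits])
  | nlit p => simp [sub, hσ p (by simp [vars, lits]), neg]
  | bot => rfl
  | top => rfl
  | and φ ψ i1 i2 =>
    simp only [vars, lits, Set.image_union, Set.mem_union] at hσ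
    simp only [sub, i1 (fun p hp => hσ p (.inl hp)), i2 (fun p hp => hσ p (.inr hp))]
  | or φ ψ i1 i2 =>
    simp only [vars, lits, Set.image_union, Set.mem_union] at hσ
    simp only [sub, i1 (fun p hp => hσ p (.inl hp)), i2 (fun p hp => hσ p (.inr hp))]
  | dia φ i => simp only [sub, i hσ]
  | box φ i => simp only [sub, i hσ]

theorem nlits_ps (a : ℕ → Fm) (q : ℕ → ℕ) (ha : ∀ p n, (n, false) ∉ lits (a p)) (φ : Fm) (n : ℕ)
    (hn : (n, false) ∈ lits (ps a (fun p => .nlit (q p)) φ)) : ∃ p ∈ vars φ, n = q p := by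
  induction φ with
  | lit p => exact absurd hn (ha p n)
  | nlit p => exact ⟨p, by simp [vars, lits], by simpa [ps, lits] using hn⟩
  | bot => simp [ps, lits] at hn
  | top => simp [ps, lits] at hn
  | and φ ψ i1 i2 =>
    simp only [vars, lits, Set.image_union, Set.mem_union, ps] at hn ⊢
    rcases hn with hn | hn
    · obtain ⟨p, hp, e⟩ := i1 hn; exact ⟨p, .inl hp, e⟩
    · obtain ⟨p, hp, e⟩ := i2 hn; exact ⟨p, .inr hp, e⟩
  | or φ ψ i1 i2 =>
    simp only [vars, lits, Set.image_union, Set.mem_union, ps] at hn ⊢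
    rcases hn with hn | hn
    · obtain ⟨p, hp, e⟩ := i1 hn; exact ⟨p, .inl hp, e⟩
    · obtain ⟨p, hp, e⟩ := i2 hn; exact ⟨p, .inr hp, e⟩
  | dia φ i => exact i hn
  | box φ i => exact i hn

theorem result (L : Set Fm) (hL : MonLogic L) (hI : LIP L) : LPP L := by
  classical
  rintro φ ⟨q, hinj, hfresh, hm⟩
  have h1 : imp φ (ps (fun p => .or (.lit p) (.lit (q p))) (fun p => .nlit (q p)) φ) ∈ L := by
    refine trans hL hm ?_
    rw [sub_eq_ps]
    exact ps_mono hL φ (fun p _ => refl hL _) (fun p _ => andr hL _ _)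
  obtain ⟨θ, hθ, h2, h3⟩ := hI _ _ h1
  refine ⟨θ, ?_, mkiff hL h2 ?_⟩
  · intro n hn
    obtain ⟨hn1, hn2⟩ := hθ hn
    obtain ⟨p, hp, e⟩ := nlits_ps _ q (by intro p n; simp [lits]) φ n hn2
    exact hfresh p hp (e ▸ ⟨_, hn1, rfl⟩)
  · let τ : ℕ → Fm := fun n => if hn : ∃ p ∈ vars φ, q p = n then .lit hn.choose else .lit n
    have t1 : ∀ p ∈ vars φ, τ p = .lit p := by
      intro p hp
      have : ¬ ∃ p' ∈ vars φ, q p' = p := by
        rintro ⟨p', hp', e⟩
        exact hfresh p' hp' (e ▸ hp)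
      simp only [τ, dif_neg this]
    have t2 : ∀ p ∈ vars φ, τ (q p) = .lit p := by
      intro p hp
      have hn : ∃ p' ∈ vars φ, q p' = q p := ⟨p, hp, rfl⟩
      simp only [τ, dif_pos hn]
      rw [hinj hn.choose_spec.1 hp hn.choose_spec.2]
    have h4 := hL.us _ τ h3
    rw [sub_imp, sub_fix τ θ (fun p ⟨x, hx, e⟩ => t1 p ⟨x, (hθ hx).1, e⟩), sub_ps] at h4
    refine trans hL h4 ?_
    conv => enter [2, 2]; rw [← ps_id φ]
    refine ps_mono hL φ (fun p hp => ?_) (fun p hp => ?_)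
    · simp only [sub, t1 p hp, t2 p hp]
      exact orelim hL (refl hL _)
    · simp only [sub, t2 p hp, neg]
      exact refl hL _

end Pool.Agent.Results.MP_55f31a_lc.Yes
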